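import Pool.Agent.Helper40.Nm.Goals

/-!
Packet COH1 of MP_f619a5_ag: a module killed by `p` over a finite `p`-group with `H^1 = 0` is
weakly coinduced.
-/

open CategoryTheory AlgebraicGeometry Limits TensorProduct

namespace Pool.Agent.Helper83.Nm

open Pool.Agent.Helper40.Nm

/-- a nonzero module killed by `p` over a finite `p`-group has a nonzero invariant -/
theorem fixedvec {p : ℕ} [hp : Fact p.Prime] {G : Type} [Group G] [Finite G] (hG : IsPGroup p G)
    {W : Type} [AddCommGroup W] (hW : ∀ w : W, p • w = 0) (a : G →* AddMonoid.End W)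
    (S : AddSubgroup W) (hS : ∀ γ, ∀ w ∈ S, a γ w ∈ S) (w0 : W) (hw0 : w0 ∈ S) (hne : w0 ≠ 0) :
    ∃ w ∈ S, w ≠ 0 ∧ ∀ γ, a γ w = w := by
  classical
  let T : AddSubgroup W := AddSubgroup.closure (Set.range fun γ => a γ w0)
  have hTS : T ≤ S := by
    rw [AddSubgroup.closure_le]
    rintro _ ⟨γ, rfl⟩
    exact hS γ w0 hw0
  have hTfg : AddGroup.FG T := by
    have : AddSubgroup.FG T := ⟨(Set.finite_range fun γ => a γ w0).toFinset, by simp [T]⟩
    exact (AddGroup.fg_iff_addSubgroup_fg T).mpr this
  have hTtor : IsAddTorsion T := by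
    intro t
    rw [isOfFinAddOrder_iff_nsmul_eq_zero]
    refine ⟨p, hp.out.pos, ?_⟩
    ext
    simpa using hW t
  have : Finite T := AddCommGroup.finite_of_fg_isAddTorsion T hTtor
  have hTst : ∀ γ, ∀ w ∈ T, a γ w ∈ T := by
    intro γ w hw
    induction hw using AddSubgroup.closure_induction with
    | mem x hx =>
      obtain ⟨δ, rfl⟩ := hx
      refine AddSubgroup.subset_closure ⟨γ * δ, ?_⟩
      simp [map_mul]
    | zero => simp
    | add x y _ _ hx hy => rw [map_add]; exact T.add_mem hx hy
    | neg x _ hx => rw [map_neg]; exact T.neg_mem hx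
  let _ : MulAction G T :=
    { smul := fun γ t => ⟨a γ t, hTst γ t t.2⟩
      one_smul := by
        intro t
        apply Subtype.ext
        show a 1 t = t
        rw [map_one]
        rfl
      mul_smul := by
        intro γ δ t
        apply Subtype.ext
        show a (γ * δ) t = a γ (a δ t)
        rw [map_mul]
        rfl }
  have hw0T : w0 ∈ T := AddSubgroup.subset_closure ⟨1, by simp⟩
  have hdvd : p ∣ Nat.card T := by
    have h1 : addOrderOf (⟨w0, hw0T⟩ : T) = p := by
      apply addOrderOf_eq_prime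
      · ext
        simpa using hW w0
      · intro h
        exact hne (by simpa using congrArg Subtype.val h)
    rw [← h1]
    exact addOrderOf_dvd_natCard _
  have hfix0 : (0 : T) ∈ MulAction.fixedPoints G T := by
    intro γ
    apply Subtype.ext
    show a γ 0 = 0
    exact map_zero _
  obtain ⟨b, hb, hb0⟩ :=
    hG.exists_fixed_point_of_prime_dvd_card_of_fixed_point T hdvd hfix0
  refine ⟨b, hTS b.2, ?_, ?_⟩
  · intro h
    exact hb0 (Subtype.ext h.symm)
  · intro γ
    exact congrArg Subtype.val (hb γ)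

theorem retract_aux {p : ℕ} [Fact p.Prime] {V : Type} [AddCommGroup V] [Module (ZMod p) V]
    (P : Submodule (ZMod p) V) : ∃ r : V →+ P, ∀ v : P, r (v : V) = v := by
  obtain ⟨r, hr⟩ := LinearMap.exists_leftInverse_of_injective P.subtype P.ker_subtype
  exact ⟨r.toAddMonoidHom, fun v => LinearMap.congr_fun hr v⟩

theorem retract {p : ℕ} [hp : Fact p.Prime] {V : Type} [AddCommGroup V] (hV : ∀ v : V, p • v = 0)
    (V0 : AddSubgroup V) : ∃ r : V →+ V0, ∀ v : V0, r (v : V) = v := by
  let _ : Module (ZMod p) V := AddCommGroup.zmodModule hV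
  exact retract_aux (p := p) (AddSubgroup.toZModSubmodule p V0)

theorem coh1 : COH1 := by
  intro p hp G _ _ V _ _ hG hV hH
  classical
  -- invariants
  let V0 : AddSubgroup V :=
    { carrier := {v | ∀ γ : G, γ • v = v}
      add_mem' := by
        intro x y hx hy γ
        rw [smul_add, hx γ, hy γ]
      zero_mem' := by
        intro γ
        exact smul_zero γ
      neg_mem' := by
        intro x hx γ
        rw [smul_neg, hx γ] }
  have hV0 : ∀ v, v ∈ V0 ↔ ∀ γ : G, γ • v = v := fun v => Iff.rfl
  obtain ⟨r, hr⟩ := retract hV V0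
  let a1 : G →* AddMonoid.End (G → V0) :=
    { toFun := fun δ =>
        { toFun := fun q γ => q (γ * δ)
          map_zero' := rfl
          map_add' := fun _ _ => rfl }
      map_one' := by
        ext q γ
        show ((q (γ * 1) : V0) : V) = _
        rw [mul_one]
        rfl
      map_mul' := by
        intro δ δ'
        ext q γ
        show ((q (γ * (δ * δ')) : V0) : V) = (q (γ * δ * δ') : V0)
        rw [mul_assoc] }
  have ha1 : ∀ δ q γ, a1 δ q γ = q (γ * δ) := fun _ _ _ => rfl
  let φ : V →+ (G → V0) :=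
    { toFun := fun v γ => r (γ • v)
      map_zero' := by
        funext γ
        simp
      map_add' := by
        intro x y
        funext γ
        simp }
  have hφ : ∀ v γ, φ v γ = r (γ • v) := fun _ _ => rfl
  have hφa : ∀ (δ : G) v, φ (δ • v) = a1 δ (φ v) := by
    intro δ v
    funext γ
    rw [hφ, ha1, hφ, mul_smul]
  let a0 : G →* AddMonoid.End V := DistribMulAction.toAddMonoidEnd G V
  have ha0 : ∀ (γ : G) (v : V), a0 γ v = γ • v := fun _ _ => rfl
  have hinj : Function.Injective φ := by
    rw [injective_iff_map_eq_zero]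
    intro v hv
    by_contra hne
    obtain ⟨w, hwS, hw0, hwi⟩ := fixedvec hG hV a0 φ.ker (by
      intro γ w hw
      rw [AddMonoidHom.mem_ker] at hw ⊢
      rw [ha0, hφa, hw, map_zero]) v (by rwa [AddMonoidHom.mem_ker]) hne
    rw [AddMonoidHom.mem_ker] at hwS
    have h1 : r w = ⟨w, hwi⟩ := hr ⟨w, hwi⟩
    have h2 : φ w 1 = ⟨w, hwi⟩ := by
      rw [hφ, one_smul]
      exact h1
    rw [hwS] at h2
    exact hw0 (congrArg Subtype.val h2).symm
  have hsurj : Function.Surjective φ := by
    intro q0
    by_contra hq0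
    have hq0' : q0 ∉ φ.range := by
      rintro ⟨v, hv⟩
      exact hq0 ⟨v, hv⟩
    let N : AddSubgroup (G → V0) := φ.range
    have hN : ∀ δ : G, N ≤ N.comap (a1 δ) := by
      rintro δ _ ⟨v, rfl⟩
      exact ⟨δ • v, hφa δ v⟩
    let a2 : G →* AddMonoid.End ((G → V0) ⧸ N) :=
      { toFun := fun δ => QuotientAddGroup.map N N (a1 δ) (hN δ)
        map_one' := by
          apply AddMonoidHom.ext
          intro x
          obtain ⟨q, rfl⟩ := QuotientAddGroup.mk_surjective x
          show (QuotientAddGroup.mk (a1 1 q) : (G → V0) ⧸ N) = QuotientAddGroup.mk q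
          rw [map_one]
          rfl
        map_mul' := by
          intro δ δ'
          apply AddMonoidHom.ext
          intro x
          obtain ⟨q, rfl⟩ := QuotientAddGroup.mk_surjective x
          show (QuotientAddGroup.mk (a1 (δ * δ') q) : (G → V0) ⧸ N) =
            QuotientAddGroup.mk (a1 δ (a1 δ' q))
          rw [map_mul]
          rfl }
    have ha2 : ∀ δ (q : G → V0), a2 δ (QuotientAddGroup.mk q) = QuotientAddGroup.mk (a1 δ q) :=
      fun _ _ => rfl
    obtain ⟨w, -, hw0, hwi⟩ := fixedvec hG (W := (G → V0) ⧸ N) (by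
      intro w
      obtain ⟨q, rfl⟩ := QuotientAddGroup.mk_surjective w
      have : p • q = 0 := by
        funext γ
        ext
        simpa using hV (q γ)
      rw [← QuotientAddGroup.mk_nsmul, this]
      rfl) a2 ⊤ (fun _ _ _ => AddSubgroup.mem_top _) (QuotientAddGroup.mk q0)
      (AddSubgroup.mem_top _) (by
        intro h
        rw [QuotientAddGroup.eq_zero_iff] at h
        exact hq0' h)
    obtain ⟨q, rfl⟩ := QuotientAddGroup.mk_surjective w
    have hcex : ∀ δ : G, ∃ v, φ v = a1 δ q - q := by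
      intro δ
      have h1 := hwi δ
      rw [ha2] at h1
      have h2 : (QuotientAddGroup.mk (a1 δ q - q) : (G → V0) ⧸ N) = 0 := by
        rw [QuotientAddGroup.mk_sub, h1, sub_self]
      rw [QuotientAddGroup.eq_zero_iff] at h2
      exact h2
    choose c hc using hcex
    have hcoc : ∀ γ δ, c (γ * δ) = c γ + γ • c δ := by
      intro γ δ
      apply hinj
      rw [map_add, hφa, hc, hc, hc, map_sub, map_mul]
      show a1 γ (a1 δ q) - q = a1 γ q - q + (a1 γ (a1 δ q) - a1 γ q)
      abel
    obtain ⟨v, hv⟩ := hH c hcoc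
    have hq' : ∀ δ : G, a1 δ (q - φ v) = q - φ v := by
      intro δ
      have h1 := hc δ
      rw [hv, map_sub, hφa] at h1
      rw [map_sub]
      have h2 : a1 δ q = q + (a1 δ (φ v) - φ v) := by
        rw [h1]
        abel
      rw [h2]
      abel
    have hconst : ∀ γ, (q - φ v) γ = (q - φ v) 1 := by
      intro γ
      have h1 := congrFun (hq' γ) 1
      rw [ha1, one_mul] at h1
      exact h1
    have hw : φ (((q - φ v) 1 : V0) : V) = q - φ v := by
      funext γ
      rw [hφ, ((q - φ v) 1).2 γ, hr, hconst γ]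
    apply hw0
    rw [QuotientAddGroup.eq_zero_iff]
    refine ⟨((q - φ v) 1 : V0) + v, ?_⟩
    rw [map_add, hw]
    abel
  let e : V ≃+ (G → V0) := AddEquiv.ofBijective φ ⟨hinj, hsurj⟩
  have he : ∀ v, e v = φ v := fun _ => rfl
  let pr : V →+ V := e.symm.toAddMonoidHom.comp ((AddMonoidHom.single (fun _ : G => V0) 1).comp r)
  have hpr : ∀ v, φ (pr v) = Pi.single 1 (r v) := by
    intro v
    rw [← he]
    exact e.apply_symm_apply _
  refine ⟨pr, ?_⟩
  intro v
  apply hinj
  rw [map_sum]
  funext δ
  rw [Finset.sum_apply]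
  have h1 : ∀ γ : G, φ (γ • pr (γ⁻¹ • v)) δ =
      if γ = δ⁻¹ then φ v δ else 0 := by
    intro γ
    rw [hφa, ha1, hpr]
    by_cases h : γ = δ⁻¹
    · subst h
      rw [if_pos rfl, mul_inv_cancel, Pi.single_eq_same, inv_inv, hφ]
    · rw [if_neg h, Pi.single_eq_of_ne]
      intro h2
      exact h (eq_inv_of_mul_eq_one_right h2)
  rw [Finset.sum_congr rfl fun γ _ => h1 γ, Finset.sum_ite_eq' Finset.univ]
  simp

end Pool.Agent.Helper83.Nm
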