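import Pool.Agent.Helper83.Nm.Loc

/-!
Packet FINS of MP_f619a5_ag: from a subgroup of sections to split reduction.
-/

open CategoryTheory AlgebraicGeometry Limits TensorProduct

namespace Pool.Agent.Helper83.Nm

open Pool.Agent.Helper40.Nm

theorem redk_left {R : Type} [CommRing R] [IsLocalRing R]
    {G : Over (Spec (CommRingCat.of R))} (s : specOver (RingHom.id R) ⟶ G) :
    (redk s).left (IsLocalRing.closedPoint (IsLocalRing.ResidueField R)) = cpt s := by
  show ((closedIncl R ≫ s).left) (IsLocalRing.closedPoint (IsLocalRing.ResidueField R)) =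
    s.left (IsLocalRing.closedPoint R)
  have h1 : (closedIncl R ≫ s).left =
      Spec.map (CommRingCat.ofHom (IsLocalRing.residue R)) ≫ s.left := rfl
  rw [h1]
  have h2 : (Spec.map (CommRingCat.ofHom (IsLocalRing.residue R)) ≫ s.left)
      (IsLocalRing.closedPoint (IsLocalRing.ResidueField R)) =
      s.left ((Spec.map (CommRingCat.ofHom (IsLocalRing.residue R)))
        (IsLocalRing.closedPoint (IsLocalRing.ResidueField R))) := rfl
  rw [h2]
  congr 1
  exact IsLocalRing.comap_closedPoint (IsLocalRing.residue R)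

theorem fins : SEC → MULT → KPT → FINS := by
  intro _hSEC hMULT hKPT
  intro R M B _ _ _ _ _ _ _ _ _ _ 𝒢 Λ hΛ1 hΛ2
  obtain ⟨-, hM2⟩ := hMULT R M B 𝒢
  have hFclosed : IsClosed (specialFibre 𝒢.G) := by
    have h1 : IsClosed ({IsLocalRing.closedPoint R} : Set (PrimeSpectrum R)) := by
      have := (PrimeSpectrum.isClosed_singleton_iff_isMaximal (IsLocalRing.closedPoint R)).mpr
      exact this (IsLocalRing.maximalIdeal.isMaximal R)
    have h2 : Continuous 𝒢.G.hom := 𝒢.G.hom.continuous
    exact h1.preimage h2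
  -- the reduction homomorphism
  let ρ : (specOver (RingHom.id R) ⟶ 𝒢.G) →* (specOver (IsLocalRing.residue R) ⟶ 𝒢.G) :=
    MonoidHom.mk' redk hM2
  refine ⟨Λ.map ρ, ?_⟩
  intro x hx
  obtain ⟨s, -, hs⟩ := hKPT R 𝒢.G 𝒢.smooth x ⊤ hx trivial
  -- the components of x and cpt s agree
  have hcl : closure ({x} : Set 𝒢.G.left) ⊆ specialFibre 𝒢.G := by
    apply hFclosed.closure_subset_iff.mpr
    rw [Set.singleton_subset_iff]
    exact hx
  have hpre : _root_.IsPreconnected (closure ({x} : Set 𝒢.G.left)) :=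
    isPreconnected_singleton.closure
  have hsub : closure ({x} : Set 𝒢.G.left) ⊆ connectedComponentIn (specialFibre 𝒢.G) x :=
    hpre.subset_connectedComponentIn (subset_closure rfl) hcl
  have hcomp : connectedComponentIn (specialFibre 𝒢.G) x =
      connectedComponentIn (specialFibre 𝒢.G) (cpt s) :=
    connectedComponentIn_eq (hsub hs)
  obtain ⟨l, hl, hsl⟩ := hΛ1 s
  refine ⟨redk l, ⟨⟨l, hl, rfl⟩, ?_⟩, ?_⟩
  · rw [redk_left, hcomp]
    exact hsl
  · rintro r ⟨⟨l', hl', rfl⟩, hr⟩
    have hr' : cpt l' ∈ connectedComponentIn (specialFibre 𝒢.G) x := by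
      have h := hr
      rw [show ρ l' = redk l' from rfl, redk_left] at h
      exact h
    have hl2 : cpt l ∈ connectedComponentIn (specialFibre 𝒢.G) x := by
      rw [hcomp]
      exact hsl
    have h3 : SameComp l' l := by
      show cpt l ∈ connectedComponentIn (specialFibre 𝒢.G) (cpt l')
      rw [← connectedComponentIn_eq hr']
      exact hl2
    exact hΛ2 l' hl' l hl h3

end Pool.Agent.Helper83.Nm
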