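import Pool.Agent.Helper40.Nm.Goals

/-!
Packet LOC of MP_f619a5_ag: a homomorphism which is constant on the points reducing into a
nonempty open set is constant on the points reducing into a connected component.
-/

open CategoryTheory AlgebraicGeometry Limits TensorProduct

namespace Pool.Agent.Helper83.Nm

open Pool.Agent.Helper40.Nm

theorem cpt_mem_specialFibre {R : Type} [CommRing R] [IsLocalRing R]
    {G : Over (Spec (CommRingCat.of R))} (s : specOver (RingHom.id R) ⟶ G) :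
    cpt s ∈ specialFibre G := by
  have h : s.left ≫ G.hom = Spec.map (CommRingCat.ofHom (RingHom.id R)) := Over.w s
  have h2 : s.left ≫ G.hom = 𝟙 _ := by
    rw [h]
    exact Spec.map_id _
  have h3 : (s.left ≫ G.hom) (IsLocalRing.closedPoint R) = IsLocalRing.closedPoint R := by
    rw [h2]
    rfl
  exact h3

theorem loc : SEC → MULT → KPT → TRANS → LOC := by
  intro hSEC hMULT hKPT hTRANS
  intro R M B _ _ _ _ _ _ _ _ _ _ 𝒢 H _ Δ V c hV hΔ t t' s s' ht ht' hss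
  obtain ⟨hS1, hS2⟩ := hSEC R M B 𝒢
  obtain ⟨hM1, hM2⟩ := hMULT R M B 𝒢
  -- the value on sections
  have hDex : ∀ s : specOver (RingHom.id R) ⟶ 𝒢.G,
      ∃ t : WithConv (B →ₐ[M] M), Lifts 𝒢 t.ofConv s := by
    intro s
    obtain ⟨t, ht, -⟩ := hS2 s
    exact ⟨WithConv.toConv t, ht⟩
  choose T hT using hDex
  have hTu : ∀ (t : WithConv (B →ₐ[M] M)) (s : specOver (RingHom.id R) ⟶ 𝒢.G),
      Lifts 𝒢 t.ofConv s → t = T s := by
    intro t s h
    obtain ⟨t0, -, h0⟩ := hS2 s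
    have h1 : t.ofConv = t0 := h0 _ h
    have h2 : (T s).ofConv = t0 := h0 _ (hT s)
    have h3 : t.ofConv = (T s).ofConv := by rw [h1, h2]
    exact WithConv.ofConv_injective h3
  have hTmul : ∀ a b : specOver (RingHom.id R) ⟶ 𝒢.G, T (a * b) = T a * T b := by
    intro a b
    exact (hTu _ _ (hM1 (T a) (T b) a b (hT a) (hT b))).symm
  set D : (specOver (RingHom.id R) ⟶ 𝒢.G) → H := fun s => Δ (T s) with hD
  have hDmul : ∀ a b, D (a * b) = D a * D b := by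
    intro a b
    simp only [hD, hTmul, map_mul]
  have hDV : ∀ s, cpt s ∈ V → D s = c := fun s hs => hΔ (T s) s (hT s) hs
  -- translations
  have hτ : ∀ g0 : specOver (RingHom.id R) ⟶ 𝒢.G, ∃ τ : 𝒢.G.left ≃ₜ 𝒢.G.left,
      (∀ r : specOver (RingHom.id R) ⟶ 𝒢.G, cpt (g0 * r) = τ (cpt r)) ∧
      ∀ x, τ x ∈ specialFibre 𝒢.G ↔ x ∈ specialFibre 𝒢.G :=
    fun g0 => (hTRANS R 𝒢.G g0).1
  choose τ hτ1 hτ2 using hτ
  let W : (specOver (RingHom.id R) ⟶ 𝒢.G) → Set 𝒢.G.left := fun g0 =>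
    τ g0 '' (V : Set 𝒢.G.left)
  have hWo : ∀ g0, IsOpen (W g0) := fun g0 => (τ g0).isOpenMap _ V.isOpen
  have h1 : ∀ g0 s, cpt s ∈ W g0 → D s = D g0 * c := by
    intro g0 s hs
    obtain ⟨y, hy, hys⟩ := hs
    have e1 : τ g0 (cpt (g0⁻¹ * s)) = cpt s := by
      rw [← hτ1 g0, mul_inv_cancel_left]
    have e2 : cpt (g0⁻¹ * s) = y := (τ g0).injective (by rw [e1, hys])
    have e3 : D (g0⁻¹ * s) = c := hDV _ (by rw [e2]; exact hy)
    have e4 : D (g0 * (g0⁻¹ * s)) = D g0 * c := by rw [hDmul, e3]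
    rwa [mul_inv_cancel_left] at e4
  obtain ⟨y0, hy0V, hy0F⟩ := hV
  obtain ⟨v, hvV, -⟩ := hKPT R 𝒢.G 𝒢.smooth y0 V hy0F hy0V
  have hself : ∀ s : specOver (RingHom.id R) ⟶ 𝒢.G, cpt s ∈ W (s * v⁻¹) := by
    intro s
    refine ⟨cpt v, hvV, ?_⟩
    rw [← hτ1, inv_mul_cancel_right]
  have h2 : ∀ x ∈ specialFibre 𝒢.G, ∃ g0, x ∈ W g0 := by
    intro x hx
    obtain ⟨s, -, hs⟩ := hKPT R 𝒢.G 𝒢.smooth x ⊤ hx trivial
    refine ⟨s * v⁻¹, ?_⟩
    have := mem_closure_iff.mp hs _ (hWo (s * v⁻¹)) (hself s)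
    obtain ⟨z, hz1, hz2⟩ := this
    rw [Set.mem_singleton_iff] at hz2
    rwa [hz2] at hz1
  have h3 : ∀ g0 g1 x, x ∈ specialFibre 𝒢.G → x ∈ W g0 → x ∈ W g1 → D g0 * c = D g1 * c := by
    intro g0 g1 x hx hx0 hx1
    obtain ⟨s, hs, -⟩ := hKPT R 𝒢.G 𝒢.smooth x ⟨W g0 ∩ W g1, (hWo g0).inter (hWo g1)⟩ hx
      ⟨hx0, hx1⟩
    have hs' : cpt s ∈ W g0 ∧ cpt s ∈ W g1 := hs
    rw [← h1 g0 s hs'.1, ← h1 g1 s hs'.2]
  have hts : Δ t = D s := by
    rw [hD, hTu t s ht]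
  have hts' : Δ t' = D s' := by
    rw [hD, hTu t' s' ht']
  rw [hts, hts']
  by_contra hne
  -- the two open sets
  let O1 : Set 𝒢.G.left := ⋃ g0 ∈ {g0 | D g0 * c = D s}, W g0
  let O2 : Set 𝒢.G.left := ⋃ g0 ∈ {g0 | D g0 * c ≠ D s}, W g0
  have hO1 : IsOpen O1 := isOpen_biUnion fun g0 _ => hWo g0
  have hO2 : IsOpen O2 := isOpen_biUnion fun g0 _ => hWo g0
  have hpre : _root_.IsPreconnected (connectedComponentIn (specialFibre 𝒢.G) (cpt s)) :=
    isPreconnected_connectedComponentIn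
  have hsub : connectedComponentIn (specialFibre 𝒢.G) (cpt s) ⊆ specialFibre 𝒢.G :=
    connectedComponentIn_subset _ _
  have hcov : connectedComponentIn (specialFibre 𝒢.G) (cpt s) ⊆ O1 ∪ O2 := by
    intro x hx
    obtain ⟨g0, hg0⟩ := h2 x (hsub hx)
    by_cases hb : D g0 * c = D s
    · left
      exact Set.mem_biUnion (show g0 ∈ {g0 | D g0 * c = D s} from hb) hg0
    · right
      exact Set.mem_biUnion (show g0 ∈ {g0 | D g0 * c ≠ D s} from hb) hg0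
  have hmem : cpt s ∈ connectedComponentIn (specialFibre 𝒢.G) (cpt s) :=
    mem_connectedComponentIn (cpt_mem_specialFibre s)
  have hA : (connectedComponentIn (specialFibre 𝒢.G) (cpt s) ∩ O1).Nonempty := by
    refine ⟨cpt s, hmem, ?_⟩
    refine Set.mem_biUnion (x := s * v⁻¹) ?_ (hself s)
    exact (h1 _ _ (hself s)).symm
  have hB : (connectedComponentIn (specialFibre 𝒢.G) (cpt s) ∩ O2).Nonempty := by
    refine ⟨cpt s', hss, ?_⟩
    refine Set.mem_biUnion (x := s' * v⁻¹) ?_ (hself s')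
    show D (s' * v⁻¹) * c ≠ D s
    rw [← h1 _ _ (hself s')]
    exact fun h => hne h.symm
  obtain ⟨x, hx, hx1, hx2⟩ := hpre O1 O2 hO1 hO2 hcov hA hB
  simp only [O1, O2, Set.mem_iUnion, Set.mem_ofPred_eq] at hx1 hx2
  obtain ⟨g0, hg0, hxg0⟩ := hx1
  obtain ⟨g1, hg1, hxg1⟩ := hx2
  exact hg1 (by rw [← h3 g0 g1 x (hsub hx) hxg0 hxg1, hg0])

end Pool.Agent.Helper83.Nm
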